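import Pool.Agent.L0h5.TW.Stm
import Pool.Agent.L0h90.TU.Cmb

/-!
# Project TW, module W2: the unlinked sets, with types of class `3` (helper88)

Adaptation of `Pool/Agent/L0h90/TU/Cmb.lean`.
-/

set_option autoImplicit false

namespace Pool.Agent.L0h88.TW

open Finset Pool.Agent.L0h5.TW
open Pool.Agent.L0h5.TT (psi)
open Pool.Agent.L0h5.TF (Vk nd Lb Ll wst card_isotropic lv lv_inj)
open Pool.Agent.W262.RK (ec Al)
open Pool.Agent.L0h71.TT (bp ortho_card)
open Pool.Agent.L0h94.FT (Lki)
open Pool.Agent.L0h90.TU (above weights)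

lemma al_bit : ∀ (a b : Fin 4), a ≠ 3 → b ≠ 3 → a ≠ b → ∀ v x v' x' : Bool × Bool,
    Al a v x = true → Al b v' x' = true →
    ((if (x'.1 && v.1) = true then 1 else 0) + (if (x'.2 && v.2) = true then 1 else 0) : ℕ) =
      if (!(decide (v = (false, false))) && !(decide (x' = (false, false)))) = true
        then 1 else 0 := by
  decide +kernel

lemma al_v : ∀ (a : Fin 4), a ≠ 3 → ∀ v v' x : Bool × Bool, Al a v x = true →
    ∀ x' : Bool × Bool, Al a v' x' = true →
    decide (v = (false, false)) = decide (v' = (false, false)) → v = v' := by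
  decide +kernel

lemma al_x : ∀ (a : Fin 4), a ≠ 3 → ∀ v v' x : Bool × Bool, Al a v x = true →
    ∀ x' : Bool × Bool, Al a v' x' = true →
    decide (x = (false, false)) = decide (x' = (false, false)) → x = x' := by
  decide +kernel

/-- the coordinates of a label -/
def cx {k : ℕ} (l : Lb k) : (Fin k → Bool) × (Fin k → Bool) :=
  (fun m => !(decide (l.1.1 m = (false, false))), fun m => !(decide (l.1.2 m = (false, false))))

lemma nd_al {k : ℕ} {a b : Fin 4} (ha : a ≠ 3) (hb : b ≠ 3) (hab : a ≠ b) {l w : Lb k}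
    (hl : ∀ m, Al a (l.1.1 m) (l.1.2 m) = true) (hw : ∀ m, Al b (w.1.1 m) (w.1.2 m) = true) :
    nd w.1.2 l.1.1 = (univ.filter fun j => ((cx l).1 j && (cx w).2 j) = true).card := by
  unfold nd
  rw [Finset.card_filter]
  exact Finset.sum_congr rfl fun m _ => al_bit a b ha hb hab _ _ _ _ (hl m) (hw m)

lemma cx_inj {k : ℕ} {a : Fin 4} (ha : a ≠ 3) {l w : Lb k}
    (hl : ∀ m, Al a (l.1.1 m) (l.1.2 m) = true) (hw : ∀ m, Al a (w.1.1 m) (w.1.2 m) = true)
    (h : cx l = cx w) : l = w := by
  have h1 := congrArg Prod.fst h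
  have h2 := congrArg Prod.snd h
  have h3 : ∀ m, l.1.1 m = w.1.1 m ∧ l.1.2 m = w.1.2 m := fun m =>
    ⟨al_v a ha _ _ _ (hl m) _ (hw m) (Bool.not_inj (congrFun h1 m)),
      al_x a ha _ _ _ (hl m) _ (hw m) (Bool.not_inj (congrFun h2 m))⟩
  exact Subtype.ext (Prod.ext (funext fun m => (h3 m).1) (funext fun m => (h3 m).2))

lemma link_iff {k : ℕ} (l w : Lb k) :
    Ll l w = Ll w l ↔ Even (nd w.1.2 l.1.1 + nd l.1.2 w.1.1) := by
  unfold Ll
  rw [decide_eq_decide, Nat.even_add, ← Nat.not_odd_iff_even, ← Nat.not_odd_iff_even, not_iff_not]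

section
variable {J : Type} [Fintype J] [DecidableEq J]

/-- the product inequality -/
lemma prod_lt (q : J → Fin 4) (bad : J → Bool) (hb3 : ∀ j, q j = 3 → bad j = false)
    (hC : CritW q bad) (s : Fin 4 → ℝ) (A : J → ℝ) (hA0 : ∀ j, 0 ≤ A j)
    (hA3 : ∀ j, q j = 3 → A j ≤ 1)
    (hA : ∀ j, q j ≠ 3 → A j ≤ if bad j = true then (1 + s (q j)) / 2 else s (q j))
    (hs : ∀ j j', q j ≠ q j' → q j ≠ 3 → q j' ≠ 3 → s (q j) * s (q j') ≤ 1) :
    (∀ j, A j = 1) ∨ ∏ j, A j < 1 := by
  by_cases hz : ∃ j, A j = 0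
  · obtain ⟨j, hj⟩ := hz
    right
    rw [Finset.prod_eq_zero (mem_univ j) hj]
    norm_num
  · push Not at hz
    have hp : ∀ j, 0 < A j := fun j => lt_of_le_of_ne (hA0 j) (hz j).symm
    by_cases h1 : ∀ j, q j ≠ 3 → s (q j) ≤ 1
    · have hA1 : ∀ j, A j ≤ 1 := by
        intro j
        by_cases h3 : q j = 3
        · exact hA3 j h3
        · refine (hA j h3).trans ?_
          have := h1 j h3
          split_ifs <;> linarith
      by_cases h2 : ∀ j, A j = 1
      · exact Or.inl h2
      · right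
        push Not at h2
        obtain ⟨j, hj⟩ := h2
        have h3 := Finset.prod_lt_prod (s := univ) (f := A) (g := fun _ => (1 : ℝ))
          (fun i _ => hp i) (fun i _ => hA1 i) ⟨j, mem_univ j, lt_of_le_of_ne (hA1 j) hj⟩
        rwa [Finset.prod_const_one] at h3
    · right
      push Not at h1
      obtain ⟨j0, hj3, hj0⟩ := h1
      set a := q j0 with ha
      set S := s a with hS
      have hS0 : 0 < S := by linarith
      have hS1 : 1 / S < 1 := by rw [div_lt_one hS0]; exact hj0
      have hSp : 0 < 1 / S := by positivity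
      set th : ℝ := (1 + 1 / S) / 2 with hth
      have hth0 : 0 < th := by positivity
      have hth1 : th < 1 := by rw [hth]; linarith
      have hf : ∀ j, A j ≤ (if q j = a then S else 1) *
          (if q j ≠ a ∧ q j ≠ 3 ∧ bad j = false then 1 / S else 1) *
          (if bad j = true then th else 1) := by
        intro j
        by_cases h3 : q j = 3
        · have hn1 : ¬ q j = a := by rw [h3]; exact fun h => hj3 h.symm
          have hn2 : ¬ (q j ≠ a ∧ q j ≠ 3 ∧ bad j = false) := fun h => h.2.1 h3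
          have hn3 : ¬ bad j = true := by rw [hb3 j h3]; decide
          rw [if_neg hn1, if_neg hn2, if_neg hn3]
          have := hA3 j h3
          linarith
        refine (hA j h3).trans ?_
        by_cases hq : q j = a
        · have hn : ¬ (q j ≠ a ∧ q j ≠ 3 ∧ bad j = false) := fun h => h.1 hq
          by_cases hb : bad j = true
          · rw [if_pos hb, if_pos hb, if_pos hq, if_neg hn, hq, hth, ← hS]
            have : S * 1 * ((1 + 1 / S) / 2) = (1 + S) / 2 := by
              field_simp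
              ring
            rw [this]
          · rw [if_neg hb, if_neg hb, if_pos hq, if_neg hn, hq, ← hS]
            linarith
        · have h2 : s (q j) ≤ 1 / S := by
            rw [le_div_iff₀ hS0]
            exact hs j j0 hq h3 hj3
          rw [if_neg hq]
          by_cases hb : bad j = true
          · have hn : ¬ (q j ≠ a ∧ q j ≠ 3 ∧ bad j = false) := by
              rintro ⟨-, -, h⟩
              rw [hb] at h
              exact absurd h (by decide)
            rw [if_pos hb, if_neg hn, if_pos hb, hth]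
            linarith
          · have hb' : bad j = false := by
              cases h : bad j
              · rfl
              · exact absurd h hb
            rw [if_neg hb, if_pos ⟨hq, h3, hb'⟩, if_neg hb]
            linarith
      have hprod : ∏ j, A j ≤ S ^ (univ.filter (fun j => q j = a)).card *
          (1 / S) ^ (univ.filter (fun j => q j ≠ a ∧ q j ≠ 3 ∧ bad j = false)).card *
          th ^ (univ.filter (fun j => bad j = true)).card := by
        refine (Finset.prod_le_prod (fun j _ => hA0 j) (fun j _ => hf j)).trans ?_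
        rw [Finset.prod_mul_distrib, Finset.prod_mul_distrib]
        simp only [Finset.prod_ite, Finset.prod_const, one_pow, mul_one]
        exact le_rfl
      refine hprod.trans_lt ?_
      have hthn : ∀ n : ℕ, th ^ n ≤ 1 := fun n => pow_le_one₀ hth0.le hth1.le
      have hSS : ∀ n : ℕ, S ^ n * (1 / S) ^ n = 1 := by
        intro n
        rw [← mul_pow, mul_one_div_cancel hS0.ne', one_pow]
      rcases hC a hj3 ⟨j0, rfl⟩ with h | ⟨h, jb, hjb⟩
      · obtain ⟨d, hd⟩ : ∃ d, (univ.filter (fun j => q j ≠ a ∧ q j ≠ 3 ∧ bad j = false)).card =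
          (univ.filter (fun j => q j = a)).card + (d + 1) := by
          obtain ⟨d, hd⟩ := Nat.exists_eq_add_of_lt h
          exact ⟨d, by omega⟩
        rw [hd, pow_add, ← mul_assoc, hSS, one_mul]
        have h3 : (1 / S) ^ (d + 1) < 1 := pow_lt_one₀ hSp.le hS1 (by omega)
        calc (1 / S) ^ (d + 1) * th ^ (univ.filter (fun j => bad j = true)).card ≤
              (1 / S) ^ (d + 1) * 1 := mul_le_mul_of_nonneg_left (hthn _) (by positivity)
          _ < 1 := by rw [mul_one]; exact h3
      · rw [← h, hSS, one_mul]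
        apply pow_lt_one₀ hth0.le hth1
        intro h0
        rw [Finset.card_eq_zero] at h0
        have : jb ∈ univ.filter (fun j => bad j = true) := by simp [hjb]
        rw [h0] at this
        exact absurd this (notMem_empty _)

end

section
variable {J : Type} [DecidableEq J] {k B : ℕ} {c : J → Fin 4} (bad : J → Bool)
  (U : Finset (Iw k B c))

/-- the labels of one type -/
def LT (j : J) : Finset (Lb k) := (U.filter (fun i => tyw i = j)).image lbw

/-- the labels of one class -/
def LC (a : Fin 4) : Finset (Lb k) := (U.filter (fun i => c (tyw i) = a)).image lbw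

/-- the exponent of one type -/
noncomputable def AA (j : J) : ℝ := ∑ i ∈ U.filter (fun i => tyw i = j), ew bad i

omit [DecidableEq J] in
lemma okl {i : Iw k B c} (h : c (tyw i) ≠ 3) (m : Fin k) :
    Al (c (tyw i)) ((lbw i).1.1 m) ((lbw i).1.2 m) = true := by
  have h1 := i.2
  unfold OkL at h1
  have h2 : decide (c i.1.1 = 3) = false := decide_eq_false h
  rw [h2, Bool.false_or, decide_eq_true_iff] at h1
  exact h1 m

lemma wst_three (l : Lb k) : wst 3 l.1.1 l.1.2 = (1 / 4) ^ k := by
  unfold wst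
  simp

lemma wst_ne {a : Fin 4} (ha : a ≠ 3) {l : Lb k} (hl : ∀ m, Al a (l.1.1 m) (l.1.2 m) = true) :
    wst a l.1.1 l.1.2 = (1 / 2) ^ k := by
  unfold wst
  rw [Finset.prod_congr rfl fun m _ => by rw [if_neg ha, if_pos (hl m)]]
  simp

omit [DecidableEq J] in
lemma wst_pos (i : Iw k B c) : 0 < wst (c (tyw i)) (lbw i).1.1 (lbw i).1.2 := by
  by_cases h : c (tyw i) = 3
  · rw [h, wst_three]
    positivity
  · rw [wst_ne h (okl h)]
    positivity

lemma wW_nonneg (a : Fin 4) (b : Bool) (l : Lb k) : 0 ≤ wW a b l := by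
  unfold wW
  have := Pool.Agent.L0h5.TF.wst_nonneg a l.1.1 l.1.2
  split_ifs <;> linarith

omit [DecidableEq J] in
lemma wW_pos (i : Iw k B c) (b : Bool) : 0 < wW (c (tyw i)) b (lbw i) := by
  unfold wW
  have := wst_pos i
  split_ifs <;> linarith

lemma AA_nonneg (j : J) : 0 ≤ AA bad U j :=
  Finset.sum_nonneg fun i _ => div_nonneg (wW_nonneg _ _ _) (Nat.cast_nonneg _)

lemma AA_le (hB : 0 < B) (j : J) : AA bad U j ≤ ∑ l ∈ LT U j, wW (c j) (bad j) l := by
  have hBR : (0 : ℝ) < B := by exact_mod_cast hB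
  have h1 : AA bad U j = ∑ p ∈ (U.filter (fun i => tyw i = j)).image
      (fun i => ((lbw i, i.1.2.2) : Lb k × Fin B)), wW (c j) (bad j) p.1 / B := by
    rw [Finset.sum_image]
    · apply Finset.sum_congr rfl
      intro i hi
      rw [ew, (mem_filter.mp hi).2]
    · intro i hi i' hi' h
      rw [mem_coe, mem_filter] at hi hi'
      have h2 := congrArg Prod.fst h
      have h3 := congrArg Prod.snd h
      apply Subtype.ext
      refine Prod.ext (hi.2.trans hi'.2.symm) (Prod.ext h2 h3)
  rw [h1]
  calc ∑ p ∈ (U.filter (fun i => tyw i = j)).image (fun i => ((lbw i, i.1.2.2) : Lb k × Fin B)),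
        wW (c j) (bad j) p.1 / (B : ℝ) ≤
      ∑ p ∈ LT U j ×ˢ (univ : Finset (Fin B)), wW (c j) (bad j) p.1 / (B : ℝ) := by
        apply Finset.sum_le_sum_of_subset_of_nonneg
        · intro p hp
          obtain ⟨i, hi, rfl⟩ := mem_image.mp hp
          rw [mem_product]
          exact ⟨mem_image.mpr ⟨i, hi, rfl⟩, mem_univ _⟩
        · intro p _ _
          exact div_nonneg (wW_nonneg _ _ _) hBR.le
    _ = ∑ l ∈ LT U j, wW (c j) (bad j) l := by
        rw [Finset.sum_product]
        apply Finset.sum_congr rfl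
        intro v _
        simp only [Finset.sum_const, Finset.card_univ, Fintype.card_fin, nsmul_eq_mul]
        field_simp

lemma LT_sub (j : J) : LT U j ⊆ LC U (c j) := by
  intro l hl
  obtain ⟨i, hi, rfl⟩ := mem_image.mp hl
  rw [mem_filter] at hi
  exact mem_image.mpr ⟨i, mem_filter.mpr ⟨hi.1, by rw [hi.2]⟩, rfl⟩

lemma LT_al {j : J} (h3 : c j ≠ 3) {l : Lb k} (hl : l ∈ LT U j) (m : Fin k) :
    Al (c j) (l.1.1 m) (l.1.2 m) = true := by
  obtain ⟨i, hi, rfl⟩ := mem_image.mp hl
  rw [mem_filter] at hi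
  have h4 : c (tyw i) ≠ 3 := by rw [hi.2]; exact h3
  have h5 := okl h4 m
  rwa [hi.2] at h5

omit [DecidableEq J] in
lemma LC_al {a : Fin 4} (h3 : a ≠ 3) {l : Lb k} (hl : l ∈ LC U a) (m : Fin k) :
    Al a (l.1.1 m) (l.1.2 m) = true := by
  obtain ⟨i, hi, rfl⟩ := mem_image.mp hl
  rw [mem_filter] at hi
  have h4 : c (tyw i) ≠ 3 := by rw [hi.2]; exact h3
  have h5 := okl h4 m
  rwa [hi.2] at h5

lemma AA_le' (hB : 0 < B) (j : J) (h3 : c j ≠ 3) : AA bad U j ≤
    if bad j = true then (1 + ((LC U (c j)).card : ℝ) / 2 ^ k) / 2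
      else ((LC U (c j)).card : ℝ) / 2 ^ k := by
  refine (AA_le bad U hB j).trans ?_
  have hcard : ((LT U j).card : ℝ) / 2 ^ k ≤ ((LC U (c j)).card : ℝ) / 2 ^ k := by
    gcongr
    exact LT_sub U j
  by_cases hb : bad j = true
  · rw [if_pos hb, hb]
    have h1 : ∀ l ∈ LT U j, wW (c j) true l =
        (if l.1 = (fun _ => (false, false), fun _ => (false, false)) then (1 / 2 : ℝ) else 0) +
          (1 / 2) ^ (k + 1) := by
      intro l hl
      unfold wW
      rw [if_pos rfl, wst_ne h3 (LT_al U h3 hl)]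
      split_ifs <;> ring
    rw [Finset.sum_congr rfl h1, Finset.sum_add_distrib, Finset.sum_const, nsmul_eq_mul]
    have h2 : ∑ l ∈ LT U j, (if l.1 = (fun _ => (false, false), fun _ => (false, false))
        then (1 / 2 : ℝ) else 0) ≤ 1 / 2 := by
      rw [← Finset.sum_filter, Finset.sum_const, nsmul_eq_mul]
      have h4 : ((LT U j).filter (fun l => l.1 =
          (fun _ => (false, false), fun _ => (false, false)))).card ≤ 1 := by
        rw [Finset.card_le_one]
        intro x hx y hy
        exact Subtype.ext ((mem_filter.mp hx).2.trans (mem_filter.mp hy).2.symm)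
      have h5 : (((LT U j).filter (fun l => l.1 =
          (fun _ => (false, false), fun _ => (false, false)))).card : ℝ) ≤ 1 := by
        exact_mod_cast h4
      linarith
    have h6 : ((LT U j).card : ℝ) * (1 / 2) ^ (k + 1) = ((LT U j).card : ℝ) / 2 ^ k / 2 := by
      rw [pow_succ, one_div, inv_pow]
      ring
    rw [h6]
    linarith
  · have hb' : bad j = false := by
      cases h : bad j
      · rfl
      · exact absurd h hb
    rw [if_neg hb, hb']
    have h1 : ∀ l ∈ LT U j, wW (c j) false l = (1 / 2) ^ k := by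
      intro l hl
      unfold wW
      rw [if_neg (by decide), wst_ne h3 (LT_al U h3 hl)]
    rw [Finset.sum_congr rfl h1, Finset.sum_const, nsmul_eq_mul, one_div, inv_pow]
    exact hcard

lemma AA_le3 (hB : 0 < B) (hU : ∀ i ∈ U, ∀ j ∈ U, Lki lbw i j = Lki lbw j i) (j : J)
    (h3 : c j = 3) (hb : bad j = false) : AA bad U j ≤ 1 := by
  refine (AA_le bad U hB j).trans ?_
  have h1 : ∀ l ∈ LT U j, wW (c j) (bad j) l = (1 / 4) ^ k := by
    intro l _
    unfold wW
    rw [hb, if_neg (by decide), h3, wst_three]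
  rw [Finset.sum_congr rfl h1, Finset.sum_const, nsmul_eq_mul]
  have h2 : (LT U j).card ≤ 4 ^ k := by
    classical
    rw [← Finset.card_image_of_injective (LT U j) lv_inj]
    apply card_isotropic
    intro l hl w hw
    obtain ⟨l', hl', rfl⟩ := mem_image.mp hl
    obtain ⟨w', hw', rfl⟩ := mem_image.mp hw
    obtain ⟨i, hi, rfl⟩ := mem_image.mp hl'
    obtain ⟨i', hi', rfl⟩ := mem_image.mp hw'
    rw [mem_filter] at hi hi'
    exact (link_iff (lbw i) (lbw i')).mp (hU i hi.1 i' hi'.1)
  have h4 : ((LT U j).card : ℝ) ≤ 4 ^ k := by exact_mod_cast h2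
  calc ((LT U j).card : ℝ) * (1 / 4) ^ k ≤ 4 ^ k * (1 / 4) ^ k :=
        mul_le_mul_of_nonneg_right h4 (by positivity)
    _ = 1 := by rw [← mul_pow]; norm_num

omit [DecidableEq J] in
lemma LC_card (hU : ∀ i ∈ U, ∀ j ∈ U, Lki lbw i j = Lki lbw j i) {a b : Fin 4} (hab : a ≠ b)
    (ha : a ≠ 3) (hb : b ≠ 3) : (LC U a).card * (LC U b).card ≤ 4 ^ k := by
  classical
  have e : ∀ {a : Fin 4}, a ≠ 3 → ((LC U a).image cx).card = (LC U a).card := by
    intro a ha
    apply Finset.card_image_of_injOn
    intro l hl w hw h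
    exact cx_inj ha (LC_al U ha hl) (LC_al U ha hw) h
  rw [← e ha, ← e hb]
  apply ortho_card
  intro x hx y hy
  obtain ⟨l, hl, rfl⟩ := mem_image.mp hx
  obtain ⟨w, hw, rfl⟩ := mem_image.mp hy
  have h1 : Even (nd w.1.2 l.1.1 + nd l.1.2 w.1.1) := by
    obtain ⟨i, hi, rfl⟩ := mem_image.mp hl
    obtain ⟨i', hi', rfl⟩ := mem_image.mp hw
    rw [mem_filter] at hi hi'
    exact (link_iff (lbw i) (lbw i')).mp (hU i hi.1 i' hi'.1)
  rw [nd_al ha hb hab (LC_al U ha hl) (LC_al U hb hw),
    nd_al hb ha hab.symm (LC_al U hb hw) (LC_al U ha hl)] at h1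
  exact h1

lemma AA_insert (i : Iw k B c) (hi : i ∉ U) (j : J) :
    AA bad (insert i U) j = AA bad U j + if tyw i = j then ew bad i else 0 := by
  unfold AA
  rw [Finset.filter_insert]
  split_ifs with h
  · rw [Finset.sum_insert (fun h' => hi (mem_filter.mp h').1), add_comm]
  · rw [add_zero]

/-- unlinked sets -/
lemma key [Fintype J] (hB : 0 < B) (hb3 : ∀ j, c j = 3 → bad j = false) (hC : CritW c bad)
    (hU : ∀ i ∈ U, ∀ j ∈ U, Lki lbw i j = Lki lbw j i) :
    (∀ j, AA bad U j = 1) ∨ ∏ j, AA bad U j < 1 := by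
  apply prod_lt c bad hb3 hC (fun a => ((LC U a).card : ℝ) / 2 ^ k) (AA bad U) (AA_nonneg bad U)
    (fun j h3 => AA_le3 bad U hB hU j h3 (hb3 j h3)) (AA_le' bad U hB)
  intro j j' hjj h3 h3'
  have h2 : ((LC U (c j)).card : ℝ) * ((LC U (c j')).card : ℝ) ≤ 4 ^ k := by
    exact_mod_cast LC_card U hU hjj h3 h3'
  rw [div_mul_div_comm, ← mul_pow, div_le_one (by positivity)]
  norm_num
  exact h2

end

/-- **W2** -/
theorem s4_cmb : S4_CMB := by
  intro J _ _ _ k B c bad hk hB hb3 hC
  have hBR : (0 : ℝ) < B := by exact_mod_cast hB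
  have hd : ∀ U : Finset (Iw k B c), ∃ d : ℝ, 0 < d ∧ (∏ j, AA bad U j < 1 →
      ∀ δ, 0 < δ → δ ≤ d → ∃ ρ : J → ℝ, (∀ a, 0 < ρ a) ∧
        ∑ a, AA bad U a * ρ a - ∑ a, psi δ (ρ a) < Fintype.card J) := by
    intro U
    by_cases h : ∏ j, AA bad U j < 1
    · obtain ⟨d, h1, h2⟩ := weights (AA bad U) (AA_nonneg bad U) h
      exact ⟨d, h1, fun _ => h2⟩
    · exact ⟨1, one_pos, fun h' => absurd h' h⟩
  choose d hd0 hd1 using hd
  have hne : (univ : Finset (Finset (Iw k B c))).Nonempty := ⟨∅, mem_univ _⟩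
  refine ⟨min (1 / 2) (univ.inf' hne d), lt_min (by norm_num) ?_, min_le_left _ _, ?_⟩
  · rw [Finset.lt_inf'_iff]
    exact fun U _ => hd0 U
  intro δ hδ hδ0 U hU
  have hsum : ∀ ρ : J → ℝ, ∑ i ∈ U, ew bad i * ρ (tyw i) = ∑ j, AA bad U j * ρ j := by
    intro ρ
    rw [← Finset.sum_fiberwise_of_maps_to (s := U) (t := univ) (g := fun i => tyw i)
      (fun i _ => mem_univ _)]
    apply Finset.sum_congr rfl
    intro j _
    rw [AA, Finset.sum_mul]
    exact Finset.sum_congr rfl fun i hi => by rw [(mem_filter.mp hi).2]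
  rcases key bad U hB hb3 hC hU with h | h
  · left
    constructor
    · have h1 := hsum (fun _ => 1)
      simp only [mul_one, h] at h1
      rw [h1]
      simp
    · intro i hi
      by_contra hcon
      push Not at hcon
      have hun : ∀ a ∈ insert i U, ∀ b ∈ insert i U, Lki lbw a b = Lki lbw b a := by
        intro a ha b hb
        rcases mem_insert.mp ha with ha' | ha'
        · rcases mem_insert.mp hb with hb' | hb'
          · rw [ha', hb']
          · rw [ha']; exact (hcon b hb').symm
        · rcases mem_insert.mp hb with hb' | hb'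
          · rw [hb']; exact hcon a ha'
          · exact hU a ha' b hb'
      have h1 : ∀ j, AA bad (insert i U) j = 1 + if tyw i = j then ew bad i else 0 := by
        intro j
        rw [AA_insert bad U i hi, h]
      have hpos : 0 < ew bad i := div_pos (wW_pos _ _) hBR
      have h2 : ∏ j, AA bad (insert i U) j = 1 + ew bad i := by
        rw [Finset.prod_congr rfl fun j _ => h1 j, Finset.prod_eq_single (tyw i)]
        · rw [if_pos rfl]
        · intro j _ hj
          rw [if_neg (fun h => hj h.symm), add_zero]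
        · intro h'; exact absurd (mem_univ _) h'
      rcases key bad (insert i U) hB hb3 hC hun with h3 | h3
      · have h4 := h3 (tyw i)
        rw [h1, if_pos rfl] at h4
        linarith
      · rw [h2] at h3
        linarith
  · right
    obtain ⟨ρ, hρ, hlt⟩ := hd1 U h δ hδ
      (hδ0.trans ((min_le_right _ _).trans (Finset.inf'_le _ (mem_univ U))))
    refine ⟨ρ, hρ, ?_⟩
    rw [hsum]
    exact hlt

end Pool.Agent.L0h88.TW
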